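import Mathlib

/-!
# Numerical lemmas for the geometry of the grid
-/

set_option autoImplicit false

namespace Pool.Agent.Y781.HM

open Real

theorem half_sq_le (t : ℝ) : t ^ 2 / 2 ≤ Real.cosh t - 1 := by
  have h1 : Real.cosh t = 1 + 2 * Real.sinh (t / 2) ^ 2 := by
    have := Real.cosh_two_mul (t / 2)
    rw [show 2 * (t / 2) = t by ring, Real.cosh_sq] at this
    linarith
  have h2 : |t / 2| ≤ |Real.sinh (t / 2)| := by
    rw [Real.abs_sinh]
    exact Real.self_le_sinh_iff.mpr (abs_nonneg _)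
  have h3 : (t / 2) ^ 2 ≤ Real.sinh (t / 2) ^ 2 := sq_le_sq.mpr h2
  rw [h1]
  nlinarith

/-- sizes -/
theorem eta_le {κ η : ℝ} (hκ : 0 < κ) (hκ1 : κ ≤ 1 / 100) (hη1 : η ≤ κ ^ 3) :
    η ≤ 1 / 10000 * κ ∧ η ≤ 1 / 100 * κ ^ 2 ∧ η ≤ 1 / 1000000 := by
  have h1 : κ ^ 2 ≤ 1 / 10000 := by nlinarith
  have h2 : κ ^ 3 ≤ 1 / 10000 * κ := by nlinarith
  have h3 : κ ^ 3 ≤ 1 / 100 * κ ^ 2 := by nlinarith [sq_nonneg κ]
  exact ⟨by linarith, by linarith, by linarith⟩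

theorem cosh_grid {κ η y : ℝ} (hκ : 0 < κ) (hκ1 : κ ≤ 1 / 100) (hη1 : η ≤ κ ^ 3)
    (hy : |y| ≤ κ / 2 + η) : Real.cosh y ≤ 1 + 13 / 100 * κ ^ 2 := by
  obtain ⟨h1, -, -⟩ := eta_le hκ hκ1 hη1
  have h2 : |y| ≤ 5001 / 10000 * κ := by linarith
  have h3 : y ^ 2 ≤ (5001 / 10000 * κ) ^ 2 := by
    rw [← sq_abs y]
    exact pow_le_pow_left₀ (abs_nonneg y) h2 2
  have h4 : (0 : ℝ) ≤ y ^ 2 / 2 := by positivity
  have h5 : κ ^ 2 ≤ 1 / 10000 := by nlinarith
  have h6 : y ^ 2 / 2 ≤ 1 / 10000 := by nlinarith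
  have h7 := Real.abs_exp_sub_one_sub_id_le (x := y ^ 2 / 2) (by rw [abs_of_nonneg h4]; linarith)
  have h8 := Real.cosh_le_exp_half_sq y
  have h9 := (abs_le.1 h7).2
  have h10 : (y ^ 2 / 2) ^ 2 ≤ 1 / 10000 * (y ^ 2 / 2) := by nlinarith
  nlinarith

/-- the quadratic form is small -/
theorem coef_sq {κ η a b t₁ t₂ : ℝ} (hκ : 0 < κ) (hκ1 : κ ≤ 1 / 100) (hη1 : η ≤ κ ^ 3)
    (ha : |a| ≤ 1) (hb : 0 ≤ b) (h1 : |t₁ - π / 3| < η) (h2 : |t₂ - 2 * π / 3| < η)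
    (e1 : a * Real.cos t₁ + b * Real.sin t₁ ≤ 1 + 13 / 100 * κ ^ 2)
    (e2 : a * Real.cos t₂ + b * Real.sin t₂ ≤ 1 + 13 / 100 * κ ^ 2) :
    a ^ 2 + b ^ 2 ≤ (29 / 25) ^ 2 := by
  obtain ⟨-, -, hη⟩ := eta_le hκ hκ1 hη1
  have h5 : κ ^ 2 ≤ 1 / 10000 := by nlinarith
  have c1 := Real.abs_cos_sub_cos_le t₁ (π / 3)
  have s1 := Real.abs_sin_sub_sin_le t₁ (π / 3)
  have c2 := Real.abs_cos_sub_cos_le t₂ (2 * π / 3)
  have s2 := Real.abs_sin_sub_sin_le t₂ (2 * π / 3)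
  have q1 : Real.cos (2 * π / 3) = -(1 / 2) := by
    rw [show 2 * π / 3 = π - π / 3 by ring, Real.cos_pi_sub, Real.cos_pi_div_three]
  have q2 : Real.sin (2 * π / 3) = √3 / 2 := by
    rw [show 2 * π / 3 = π - π / 3 by ring, Real.sin_pi_sub, Real.sin_pi_div_three]
  rw [Real.cos_pi_div_three] at c1
  rw [Real.sin_pi_div_three] at s1
  rw [q1] at c2
  rw [q2] at s2
  have h3 : (1.732 : ℝ) ≤ √3 := by
    apply Real.le_sqrt_of_sq_le
    norm_num
  have c1' := abs_le.1 (c1.trans (h1.le.trans hη))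
  have s1' := abs_le.1 (s1.trans (h1.le.trans hη))
  have c2' := abs_le.1 (c2.trans (h2.le.trans hη))
  have s2' := abs_le.1 (s2.trans (h2.le.trans hη))
  have k1 : (0.8659 : ℝ) ≤ Real.sin t₁ := by linarith [s1'.1]
  have k2 : (0.8659 : ℝ) ≤ Real.sin t₂ := by linarith [s2'.1]
  have k3 : (0.4999 : ℝ) ≤ Real.cos t₁ := by linarith [c1'.1]
  have k4 : Real.cos t₂ ≤ -(0.4999 : ℝ) := by linarith [c2'.2]
  have main : |a| * 0.4999 + b * 0.8659 ≤ 1.0001 := by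
    rcases le_total 0 a with h | h
    · rw [abs_of_nonneg h]
      have := mul_le_mul_of_nonneg_left k3 h
      have := mul_le_mul_of_nonneg_left k1 hb
      linarith
    · rw [abs_of_nonpos h]
      have := mul_le_mul_of_nonneg_left k2 hb
      have := mul_le_mul_of_nonpos_left k4 h
      linarith
  have hu := abs_nonneg a
  rw [← sq_abs a]
  have hb2 : b ≤ 1.156 - 0.577 * |a| := by linarith
  have hb3 : b ^ 2 ≤ (1.156 - 0.577 * |a|) ^ 2 := pow_le_pow_left₀ hb hb2 2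
  nlinarith

/-- the bound of the linear form -/
theorem lin_le {a b t : ℝ} (h : a ^ 2 + b ^ 2 ≤ (29 / 25) ^ 2) :
    a * Real.cos t + b * Real.sin t ≤ 29 / 25 := by
  refine le_of_sq_le_sq ?_ (by norm_num)
  have h1 := Real.sin_sq_add_cos_sq t
  nlinarith [sq_nonneg (a * Real.sin t - b * Real.cos t)]

theorem lin_near {a b t t' δ : ℝ} (ha : |a| ≤ 1) (hb : 0 ≤ b) (hb1 : b ≤ 29 / 25)
    (h : |t - t'| ≤ δ) :
    a * Real.cos t + b * Real.sin t ≤ a * Real.cos t' + b * Real.sin t' + 54 / 25 * δ := by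
  have c1 := Real.abs_cos_sub_cos_le t t'
  have s1 := Real.abs_sin_sub_sin_le t t'
  have h1 : a * (Real.cos t - Real.cos t') ≤ δ := by
    refine (le_abs_self _).trans ?_
    rw [abs_mul]
    have := abs_nonneg (Real.cos t - Real.cos t')
    nlinarith [abs_nonneg a]
  have h2 : b * (Real.sin t - Real.sin t') ≤ 29 / 25 * δ := by
    refine (le_abs_self _).trans ?_
    rw [abs_mul, abs_of_nonneg hb]
    have := abs_nonneg (Real.sin t - Real.sin t')
    nlinarith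
  linarith

/-- the case of a low point -/
theorem low_le {κ η a b t t' : ℝ} (hκ : 0 < κ) (hκ1 : κ ≤ 1 / 100) (hη1 : η ≤ κ ^ 3)
    (ha : |a| ≤ 1) (hb : 0 ≤ b) (ht : 0 < t) (ht1 : t < κ / 2) (ht' : |t' - κ| < η)
    (e : a * Real.cos t' + b * Real.sin t' ≤ 1 + 13 / 100 * κ ^ 2) :
    a * Real.cos t + b * Real.sin t ≤ 1 + 32 / 25 * κ ^ 2 := by
  obtain ⟨h1, -, -⟩ := eta_le hκ hκ1 hη1
  have h2 := abs_lt.1 ht'
  have h3 : t' ≤ 10001 / 10000 * κ := by linarith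
  have h4 : 9999 / 10000 * κ ≤ t' := by linarith
  have h5 : κ ^ 2 ≤ 1 / 10000 := by nlinarith
  set d := t' - t with hd
  have hd0 : 0 < d := by rw [hd]; linarith
  have hd1 : d ≤ t' := by rw [hd]; linarith
  have ht'0 : 0 < t' := by linarith
  have e2 : a * Real.cos t + b * Real.sin t = (a * Real.cos t' + b * Real.sin t') * Real.cos d +
      Real.sin d * (a * Real.sin t' - b * Real.cos t') := by
    have e3 : t = t' - d := by rw [hd]; ring
    rw [show Real.cos t = Real.cos (t' - d) by rw [← e3], show Real.sin t = Real.sin (t' - d) by rw [← e3],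
      Real.cos_sub t' d, Real.sin_sub t' d]
    ring
  rw [e2]
  have s1 : Real.sin d ≤ t' := (Real.sin_le hd0.le).trans hd1
  have s2 : Real.sin t' ≤ t' := Real.sin_le ht'0.le
  have hpi := Real.pi_gt_three
  have s3 : 0 ≤ Real.sin d := Real.sin_nonneg_of_nonneg_of_le_pi hd0.le (by linarith)
  have s4 : 0 ≤ Real.sin t' := Real.sin_nonneg_of_nonneg_of_le_pi ht'0.le (by linarith)
  have c1 : 0 ≤ Real.cos t' := Real.cos_nonneg_of_mem_Icc ⟨by linarith, by linarith⟩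
  have c2 : 0 ≤ Real.cos d := Real.cos_nonneg_of_mem_Icc ⟨by linarith, by linarith⟩
  have c3 : Real.cos d ≤ 1 := Real.cos_le_one d
  have k1 : a * Real.sin t' - b * Real.cos t' ≤ t' := by
    have := (abs_le.1 ha).2
    nlinarith [mul_nonneg hb c1]
  have k2 : Real.sin d * (a * Real.sin t' - b * Real.cos t') ≤ t' * t' := by
    rcases le_total 0 (a * Real.sin t' - b * Real.cos t') with h | h
    · exact mul_le_mul s1 k1 h ht'0.le
    · have : Real.sin d * (a * Real.sin t' - b * Real.cos t') ≤ 0 :=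
        mul_nonpos_of_nonneg_of_nonpos s3 h
      nlinarith
  have k3 : (a * Real.cos t' + b * Real.sin t') * Real.cos d ≤ 1 + 13 / 100 * κ ^ 2 := by
    rcases le_total 0 (a * Real.cos t' + b * Real.sin t') with h | h
    · nlinarith
    · have := mul_nonpos_of_nonpos_of_nonneg h c2
      nlinarith
  nlinarith

/-- the second coefficient is small if there is a low point -/
theorem low_coef {κ η a b t t' : ℝ} (hκ : 0 < κ) (hκ1 : κ ≤ 1 / 100) (hη1 : η ≤ κ ^ 3)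
    (hb : 0 ≤ b) (ht : 0 < t) (ht1 : t < κ / 2) (ht' : |t' - κ| < η)
    (e0 : 1 ≤ a * Real.cos t + b * Real.sin t)
    (e : a * Real.cos t' + b * Real.sin t' ≤ 1 + 13 / 100 * κ ^ 2) : b ≤ 2 * κ := by
  obtain ⟨h1, -, -⟩ := eta_le hκ hκ1 hη1
  have h2 := abs_lt.1 ht'
  have h3 : t' ≤ 10001 / 10000 * κ := by linarith
  have h4 : 9999 / 10000 * κ ≤ t' := by linarith
  have h5 : κ ^ 2 ≤ 1 / 10000 := by nlinarith
  set d := t' - t with hd
  have hd0 : 49 / 100 * κ < d := by rw [hd]; linarith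
  have hd1 : d ≤ t' := by rw [hd]; linarith
  have hd2 : 0 < d := by linarith
  have ht'0 : 0 < t' := by linarith
  have hpi := Real.pi_gt_three
  have c1 : 0 ≤ Real.cos t' := Real.cos_nonneg_of_mem_Icc ⟨by linarith, by linarith⟩
  have c2 : 0 ≤ Real.cos t := Real.cos_nonneg_of_mem_Icc ⟨by linarith, by linarith⟩
  have c3 : Real.cos t ≤ 1 := Real.cos_le_one t
  have s1 : Real.sin d = Real.sin t' * Real.cos t - Real.cos t' * Real.sin t := by
    rw [hd, Real.sin_sub]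
  have k1 : b * Real.sin d ≤ (1 + 13 / 100 * κ ^ 2) * Real.cos t - Real.cos t' := by
    rw [s1]
    nlinarith [mul_le_mul_of_nonneg_right e c2, mul_le_mul_of_nonneg_right e0 c1]
  have k2 : 1 - t' ^ 2 / 2 ≤ Real.cos t' := Real.one_sub_sq_div_two_le_cos
  have k3 : d - d ^ 3 / 6 < Real.sin d := Real.sin_gt_sub_cube hd2
  have k4 : d ^ 2 ≤ 1 / 5000 := by nlinarith
  have k5 : d ^ 3 ≤ 1 / 5000 * d := by nlinarith
  have k6 : 48 / 100 * κ ≤ Real.sin d := by linarith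
  have k7 : b * (48 / 100 * κ) ≤ b * Real.sin d := mul_le_mul_of_nonneg_left k6 hb
  have k8 : (1 + 13 / 100 * κ ^ 2) * Real.cos t ≤ 1 + 13 / 100 * κ ^ 2 := by nlinarith
  have k9 : b * (48 / 100 * κ) ≤ (2 * κ) * (48 / 100 * κ) := by nlinarith
  exact le_of_mul_le_mul_right k9 (by positivity)

theorem cosh_three : 10 ≤ Real.cosh 3 := by
  have h := Real.exp_one_gt_d9
  have h1 : (20 : ℝ) ≤ Real.exp 3 := by
    have : Real.exp 3 = Real.exp 1 ^ 3 := by
      rw [← Real.exp_nat_mul]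
      norm_num
    rw [this]
    have : (2.72 - 0.002 : ℝ) ^ 3 ≤ Real.exp 1 ^ 3 := pow_le_pow_left₀ (by norm_num) (by linarith) 3
    norm_num at this
    linarith
  rw [Real.cosh_eq]
  have := Real.exp_pos (-3)
  linarith

theorem cosh_sub_three {ρ : ℝ} (h : 3 ≤ ρ) : 10 * Real.cosh (ρ - 3) ≤ Real.cosh ρ := by
  have h1 : Real.cosh ρ = Real.cosh (ρ - 3) * Real.cosh 3 + Real.sinh (ρ - 3) * Real.sinh 3 := by
    rw [← Real.cosh_add]
    congr 1
    ring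
  have h2 := cosh_three
  have h3 : 0 ≤ Real.sinh (ρ - 3) := Real.sinh_nonneg_iff.2 (by linarith)
  have h4 : 0 ≤ Real.sinh 3 := Real.sinh_nonneg_iff.2 (by norm_num)
  have h5 := Real.cosh_pos (ρ - 3)
  nlinarith [mul_nonneg h3 h4]

/-- the points which are not low are outside of the smaller ball -/
theorem high_le {κ a b x y : ℝ} (hκ : 0 < κ) (hκ1 : κ ≤ 1 / 100) (ha : |a| ≤ 1)
    (hb1 : b ≤ 1 / 5 * κ) (hxy : x ^ 2 + y ^ 2 = 1) (hy : Real.sin (κ / 2) ≤ y) :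
    a * x + b * y ≤ 1 := by
  have k3 : κ / 2 - (κ / 2) ^ 3 / 6 < Real.sin (κ / 2) := Real.sin_gt_sub_cube (by positivity)
  have h5 : κ ^ 2 ≤ 1 / 10000 := by nlinarith
  have h6 : κ ^ 3 ≤ 1 / 10000 * κ := by nlinarith
  have k4 : 49 / 100 * κ ≤ y := by nlinarith
  have hy0 : 0 < y := by nlinarith
  have k5 : |x| ≤ 1 - y ^ 2 / 2 := by
    refine abs_le_of_sq_le_sq ?_ ?_
    · nlinarith [sq_nonneg (y ^ 2)]
    · nlinarith [sq_nonneg x]
  have k6 : a * x ≤ |x| := by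
    refine (le_abs_self _).trans ?_
    rw [abs_mul]
    nlinarith [abs_nonneg x]
  nlinarith

end Pool.Agent.Y781.HM
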