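import Pool.Agent.Y979.HM.Stm
import Pool.Agent.Y781.HM.G1Num

/-!
# Geometry of the grid, the centre of the ball is in the middle
-/

set_option autoImplicit false

open MeasureTheory UpperHalfPlane Filter Pool.Agent.Y979.HV Pool.Agent.Y979.HM
open scoped ENNReal Topology

namespace Pool.Agent.Y781.HM

/-- the angle -/
noncomputable def ar (z : ℍ) : ℝ := Complex.arg (z : ℂ)

theorem re_eq (z : ℍ) : z.re = ‖(z : ℂ)‖ * Real.cos (ar z) := (Complex.norm_mul_cos_arg (z : ℂ)).symm

theorem im_eq (z : ℍ) : z.im = ‖(z : ℂ)‖ * Real.sin (ar z) := (Complex.norm_mul_sin_arg (z : ℂ)).symm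

theorem sin_ar_pos (z : ℍ) : 0 < Real.sin (ar z) := by
  have h := z.im_pos
  rw [im_eq] at h
  exact pos_of_mul_pos_right h (norm_nonneg _)

theorem ar_pos (z : ℍ) : 0 < ar z := by
  have h : 0 ≤ ar z := Complex.arg_nonneg_iff.2 z.im_pos.le
  rcases h.lt_or_eq with h | h
  · exact h
  · have := sin_ar_pos z
    rw [← h, Real.sin_zero] at this
    exact absurd this (lt_irrefl _)

theorem ar_lt (z : ℍ) : ar z < Real.pi := by
  have h : ar z ≤ Real.pi := Complex.arg_le_pi _
  rcases h.lt_or_eq with h | h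
  · exact h
  · have := sin_ar_pos z
    rw [h, Real.sin_pi] at this
    exact absurd this (lt_irrefl _)

/-- the distance in logarithmic polar coordinates -/
theorem cosh_sc (c z : ℍ) : Real.cosh (sc z - sc c) =
    Real.cos (ar c) * Real.cos (ar z) +
      (Real.cosh (dist c z) * Real.sin (ar c)) * Real.sin (ar z) := by
  have h := cosh_dist_sc c z
  have h1 := norm_pos' c
  have h2 := norm_pos' z
  have h3 := sin_ar_pos c
  have h4 := sin_ar_pos z
  rw [re_eq c, re_eq z, im_eq c, im_eq z] at h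
  rw [h, ← Real.cosh_neg, neg_sub]
  field_simp
  ring

theorem sin_sq_add (z : ℍ) : Real.cos (ar z) ^ 2 + Real.sin (ar z) ^ 2 = 1 := by
  rw [add_comm]
  exact Real.sin_sq_add_cos_sq _

/-- a point of the configuration in a box of the grid -/
theorem exists_grid {κ η : ℝ} {A : Set ℍ} (hA : GridOK κ η A) (k : ℤ) (hk : |(k : ℝ) * κ| ≤ 7 / 2)
    (j : Fin 4) : ∃ z ∈ A, |sc z - k * κ| < η ∧ |ar z - row κ j| < η := by
  obtain ⟨z, hz⟩ := Set.encard_eq_one.1 (hA.1 k hk j)
  have : z ∈ A ∩ gbox κ η k j := by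
    rw [hz]
    exact Set.mem_singleton z
  exact ⟨z, this.1, this.2.1, this.2.2⟩

theorem g1 : S_G1 := by
  intro κ η hκ hκ1 hη hη1 A hA c ρ hemp hc x hxA hx
  have hρ : 0 ≤ ρ := hx ▸ dist_nonneg
  obtain ⟨hη2, hη3, hη4⟩ := eta_le hκ hκ1 hη1
  have hκ2 : κ ^ 2 ≤ 1 / 10000 := by nlinarith
  -- the linear form
  set a := Real.cos (ar c) with ha
  set b := Real.cosh ρ * Real.sin (ar c) with hb
  have ha1 : |a| ≤ 1 := Real.abs_cos_le_one _
  have hb0 : 0 ≤ b := mul_nonneg (Real.cosh_pos _).le (sin_ar_pos c).le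
  have fA : ∀ z ∈ A, a * Real.cos (ar z) + b * Real.sin (ar z) ≤ Real.cosh (sc z - sc c) := by
    intro z hz
    have h1 : ρ ≤ dist c z := by
      by_contra h
      push Not at h
      have : z ∈ A ∩ Metric.ball c ρ := ⟨hz, by rw [Metric.mem_ball, dist_comm]; exact h⟩
      rw [hemp] at this
      exact this
    have h2 : Real.cosh ρ ≤ Real.cosh (dist c z) := by
      rw [Real.cosh_le_cosh, abs_of_nonneg hρ, abs_of_nonneg dist_nonneg]
      exact h1
    rw [cosh_sc c z]
    have := mul_le_mul_of_nonneg_right (mul_le_mul_of_nonneg_right h2 (sin_ar_pos c).le)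
      (sin_ar_pos z).le
    linarith
  have fB : ∀ z : ℍ, dist c z ≤ ρ →
      Real.cosh (sc z - sc c) ≤ a * Real.cos (ar z) + b * Real.sin (ar z) := by
    intro z h1
    have h2 : Real.cosh (dist c z) ≤ Real.cosh ρ := by
      rw [Real.cosh_le_cosh, abs_of_nonneg hρ, abs_of_nonneg dist_nonneg]
      exact h1
    rw [cosh_sc c z]
    have := mul_le_mul_of_nonneg_right (mul_le_mul_of_nonneg_right h2 (sin_ar_pos c).le)
      (sin_ar_pos z).le
    linarith
  -- the column of the grid
  set k : ℤ := round (sc c / κ) with hk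
  have hk1 : |(k : ℝ) * κ - sc c| ≤ κ / 2 := by
    have h1 := abs_sub_round (sc c / κ)
    have h2 : (k : ℝ) * κ - sc c = -((sc c / κ - round (sc c / κ)) * κ) := by
      rw [hk]
      field_simp
      ring
    rw [h2, abs_neg, abs_mul, abs_of_pos hκ]
    nlinarith
  have hk2 : |(k : ℝ) * κ| ≤ 7 / 2 := by
    have h1 := abs_le.1 hk1
    have h2 := abs_le.1 hc
    rw [abs_le]
    constructor
    · linarith [h1.1, h2.1]
    · linarith [h1.2, h2.2]
  have hgr : ∀ j : Fin 4, ∃ t : ℝ, |t - row κ j| < η ∧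
      a * Real.cos t + b * Real.sin t ≤ 1 + 13 / 100 * κ ^ 2 := by
    intro j
    obtain ⟨z, hzA, hz1, hz2⟩ := exists_grid hA k hk2 j
    refine ⟨ar z, hz2, (fA z hzA).trans (cosh_grid hκ hκ1 hη1 ?_)⟩
    have h1 := abs_le.1 hk1
    have h2 := abs_lt.1 hz1
    rw [abs_le]
    constructor
    · linarith [h1.1, h2.1]
    · linarith [h1.2, h2.2]
  obtain ⟨t₀, ht₀, e₀⟩ := hgr 0
  obtain ⟨t₁, ht₁, e₁⟩ := hgr 1
  obtain ⟨t₂, ht₂, e₂⟩ := hgr 2
  obtain ⟨t₃, ht₃, e₃⟩ := hgr 3
  have r0 : row κ 0 = κ := rfl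
  have r1 : row κ 1 = Real.pi / 3 := rfl
  have r2 : row κ 2 = 2 * Real.pi / 3 := rfl
  have r3 : row κ 3 = Real.pi - κ := rfl
  rw [r0] at ht₀
  rw [r1] at ht₁
  rw [r2] at ht₂
  rw [r3] at ht₃
  have hq : a ^ 2 + b ^ 2 ≤ (29 / 25) ^ 2 := coef_sq hκ hκ1 hη1 ha1 hb0 ht₁ ht₂ e₁ e₂
  have hb1 : b ≤ 29 / 25 := by
    refine le_of_sq_le_sq ?_ (by norm_num)
    nlinarith [sq_nonneg a]
  -- the points of the ball
  have hball : ∀ z : ℍ, dist c z ≤ ρ → |sc z| < 4 := by
    intro z hz
    have h1 := (fB z hz).trans (lin_le (t := ar z) hq)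
    have h2 := half_sq_le (sc z - sc c)
    have h3 : |sc z - sc c| ≤ 3 / 5 := by
      refine abs_le_of_sq_le_sq ?_ (by norm_num)
      linarith
    have h4 := abs_le.1 h3
    have h5 := abs_le.1 hc
    rw [abs_lt]
    constructor
    · linarith [h4.1, h5.1]
    · linarith [h4.2, h5.2]
  -- bounds of the difference of the coordinates
  have hdiff : ∀ q : ℝ, 0 ≤ q → a * Real.cos (ar x) + b * Real.sin (ar x) ≤ 1 + q ^ 2 / 2 →
      |sc x - sc c| ≤ q := by
    intro q hq0 h
    have h1 := fB x hx.le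
    have h2 := half_sq_le (sc x - sc c)
    refine abs_le_of_sq_le_sq ?_ hq0
    linarith
  by_cases hlow : x.im < Real.sin (κ / 2) * ‖(x : ℂ)‖
  · -- a low point
    right
    have hxl : x ∈ Zl κ := ⟨hball x hx.le, hlow⟩
    have hsin : Real.sin (ar x) < Real.sin (κ / 2) := by
      rw [im_eq x, mul_comm] at hlow
      exact lt_of_mul_lt_mul_right hlow (norm_nonneg _)
    have hpi := Real.pi_gt_three
    have hcase : ar x < κ / 2 ∨ Real.pi - ar x < κ / 2 := by
      by_contra hcon
      push Not at hcon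
      obtain ⟨g1, g2⟩ := hcon
      rcases le_total (ar x) (Real.pi / 2) with h | h
      · have := Real.sin_le_sin_of_le_of_le_pi_div_two (by linarith) h g1
        linarith
      · have h1 := Real.sin_le_sin_of_le_of_le_pi_div_two (x := κ / 2) (y := Real.pi - ar x)
          (by linarith) (by linarith) g2
        rw [Real.sin_pi_sub] at h1
        linarith
    have hone : 1 ≤ a * Real.cos (ar x) + b * Real.sin (ar x) :=
      (Real.one_le_cosh _).trans (fB x hx.le)
    have hmain : a * Real.cos (ar x) + b * Real.sin (ar x) ≤ 1 + 32 / 25 * κ ^ 2 ∧ b ≤ 2 * κ := by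
      rcases hcase with h | h
      · exact ⟨low_le hκ hκ1 hη1 ha1 hb0 (ar_pos x) h ht₀ e₀,
          low_coef hκ hκ1 hη1 hb0 (ar_pos x) h ht₀ hone e₀⟩
      · have ht3' : |(Real.pi - t₃) - κ| < η := by
          rw [show (Real.pi - t₃) - κ = -(t₃ - (Real.pi - κ)) by ring, abs_neg]
          exact ht₃
        have e3' : (-a) * Real.cos (Real.pi - t₃) + b * Real.sin (Real.pi - t₃) ≤
            1 + 13 / 100 * κ ^ 2 := by
          rw [Real.cos_pi_sub, Real.sin_pi_sub]
          linarith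
        have hpx : 0 < Real.pi - ar x := by linarith [ar_lt x]
        have e4 : (-a) * Real.cos (Real.pi - ar x) + b * Real.sin (Real.pi - ar x) =
            a * Real.cos (ar x) + b * Real.sin (ar x) := by
          rw [Real.cos_pi_sub, Real.sin_pi_sub]
          ring
        have ha1' : |(-a)| ≤ 1 := by rw [abs_neg]; exact ha1
        have w1 := low_le hκ hκ1 hη1 ha1' hb0 hpx h ht3' e3'
        have w2 := low_coef (a := -a) hκ hκ1 hη1 hb0 hpx h ht3' (by rw [e4]; exact hone) e3'
        rw [e4] at w1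
        exact ⟨w1, w2⟩
    refine ⟨hxl, hdiff _ (by positivity) (hmain.1.trans (le_of_eq (by ring))), ?_⟩
    rcases le_or_gt ρ 3 with h3 | h3
    · exact Or.inl h3
    right
    intro z hz
    rw [Metric.mem_ball, dist_comm] at hz
    refine ⟨hball z (by linarith), ?_⟩
    by_contra hcon
    push Not at hcon
    have hz1 : Real.sin (κ / 2) ≤ Real.sin (ar z) := by
      rw [im_eq z, mul_comm] at hcon
      exact le_of_mul_le_mul_left hcon (norm_pos' z)
    have h4 : Real.cosh (dist c z) < Real.cosh (ρ - 3) := by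
      rw [Real.cosh_lt_cosh, abs_of_nonneg dist_nonneg, abs_of_nonneg (by linarith)]
      exact hz
    have h5 := cosh_sub_three h3.le
    set b' := Real.cosh (ρ - 3) * Real.sin (ar c) with hb'
    have h6 : b' ≤ 1 / 5 * κ := by
      have := mul_le_mul_of_nonneg_right h5 (sin_ar_pos c).le
      have h7 := hmain.2
      rw [hb] at h7
      rw [hb']
      linarith
    have h7 := high_le (x := Real.cos (ar z)) hκ hκ1 ha1 h6 (sin_sq_add z) hz1
    have h8 := cosh_sc c z
    have h9 := Real.one_le_cosh (sc z - sc c)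
    have h10 : (Real.cosh (dist c z) * Real.sin (ar c)) * Real.sin (ar z) < b' * Real.sin (ar z) :=
      mul_lt_mul_of_pos_right (mul_lt_mul_of_pos_right h4 (sin_ar_pos c)) (sin_ar_pos z)
    linarith
  · -- a high point
    left
    push Not at hlow
    have hxh : x ∈ Zh κ := ⟨hball x hx.le, hlow⟩
    have hxg : x ∈ gboxes κ η := by
      by_contra h
      have : x ∈ A ∩ (Zh κ \ gboxes κ η) := ⟨hxA, hxh, h⟩
      rw [hA.2] at this
      exact this
    refine ⟨hxg, ?_⟩
    have hxg' := hxg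
    unfold gboxes at hxg'
    simp only [Set.mem_iUnion] at hxg'
    obtain ⟨k', hk', j, hx1, hx2⟩ := hxg'
    obtain ⟨t, ht, e⟩ := hgr j
    have h1 : |ar x - t| ≤ 2 * η := by
      have g1 := abs_lt.1 ht
      have g2 : |ar x - row κ j| < η := hx2
      have g3 := abs_lt.1 g2
      rw [abs_le]
      constructor
      · linarith [g1.2, g3.1]
      · linarith [g1.1, g3.2]
    have h2 := lin_near ha1 hb0 hb1 h1
    refine hdiff (3 / 5 * κ) (by positivity) ?_
    have h3 : (3 / 5 * κ) ^ 2 / 2 = 9 / 50 * κ ^ 2 := by ring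
    rw [h3]
    linarith [sq_nonneg κ]

end Pool.Agent.Y781.HM
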