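import Pool.Agent.Y781.HM.GE2

/-!
# The energy of a grid configuration: conclusion
-/

set_option autoImplicit false

open MeasureTheory UpperHalfPlane Filter Pool.Agent.Y979.HV Pool.Agent.Y979.HM
open scoped ENNReal Topology

namespace Pool.Agent.Y781.HM

theorem tsum_ind' (A B : Set ℍ) [∀ x : ℍ, Decidable (x ∈ B)] (c : ℝ≥0∞) :
    ∑' x : A, (if (x : ℍ) ∈ B then c else 0) = (A ∩ B).encard * c := by
  rw [← tsum_ind A B c]
  congr 1
  funext x
  congr

open Classical in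
/-- the weight of a tile -/
noncomputable def gp (κ : ℝ) (A : Set ℍ) (p : ℤ × ℤ) : ℝ≥0∞ :=
  ∑' L : ℕ, if Bad (Zl κ) p L A then
    ENNReal.ofReal ((4 : ℝ) ^ p.1 * Real.exp (4 * L)) *
      (32 + (((A ∩ (Zl κ ∩ Metric.closedBall (ctr p) (2 * L + 3))).encard : ℕ∞) : ℝ≥0∞)) else 0

open Classical in
/-- the number of partners -/
theorem encard_SS (hg1 : S_G1) {κ η : ℝ} (hκ : 0 < κ) (hκ1 : κ ≤ 1 / 100) (hη : 0 < η)
    (hη1 : η ≤ κ ^ 3) {A : Set ℍ} (hA : GridOK κ η A) (w : ℍ) (T : Set ℍ) :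
    (SS κ A w ∩ T).encard ≤ 32 + (A ∩ (Zl κ ∩ T)).encard := by
  obtain ⟨hη2, -, hη4⟩ := eta_le hκ hκ1 hη1
  let B : ℤ → Fin 4 → Set ℍ := fun k j => if |(k : ℝ) * κ| ≤ 7 / 2 then A ∩ gbox κ η k j else ∅
  have hB : ∀ k j, (B k j).encard ≤ 1 := by
    intro k j
    show (if |(k : ℝ) * κ| ≤ 7 / 2 then A ∩ gbox κ η k j else ∅).encard ≤ 1
    split_ifs with h
    · exact (hA.1 k h j).le
    · simp
  set k₀ : ℤ := round (sc w / κ) with hk₀
  have hk1 : |(k₀ : ℝ) * κ - sc w| ≤ κ / 2 := by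
    have h1 := abs_sub_round (sc w / κ)
    have h2 : (k₀ : ℝ) * κ - sc w = -((sc w / κ - round (sc w / κ)) * κ) := by
      rw [hk₀]
      field_simp
      ring
    rw [h2, abs_neg, abs_mul, abs_of_pos hκ]
    nlinarith
  have hsub : SS κ A w ∩ T ⊆ (⋃ p ∈ (Finset.Icc (-2 : ℤ) 2) ×ˢ (Finset.univ : Finset (Fin 4)),
      B (k₀ + p.1) p.2) ∪ (A ∩ (Zl κ ∩ T)) := by
    rintro x ⟨⟨hxA, c, ρ, hemp, hc, hcw, hcx, -, hwc⟩, hxT⟩
    rcases hg1 κ η hκ hκ1 hη hη1 A hA c ρ hemp hc x hxA hcx with ⟨x1, x2⟩ | ⟨x1, -, -⟩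
    · left
      unfold gboxes at x1
      simp only [Set.mem_iUnion] at x1
      obtain ⟨l, hl, j, x3⟩ := x1
      have h1 : |((l - k₀ : ℤ) : ℝ)| < 3 := by
        have h3 := abs_lt.1 x3.1
        have h4 := abs_le.1 hk1
        have h5 := abs_le.1 x2
        have h6 := abs_le.1 hwc
        rw [abs_lt]
        push_cast
        constructor
        · by_contra hcon
          push Not at hcon
          have : ((l : ℝ) - k₀) * κ ≤ -3 * κ := mul_le_mul_of_nonneg_right hcon hκ.le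
          nlinarith [h3.1, h3.2, h4.1, h4.2, h5.1, h5.2, h6.1, h6.2]
        · by_contra hcon
          push Not at hcon
          have : 3 * κ ≤ ((l : ℝ) - k₀) * κ := mul_le_mul_of_nonneg_right hcon hκ.le
          nlinarith [h3.1, h3.2, h4.1, h4.2, h5.1, h5.2, h6.1, h6.2]
      have h2 : l - k₀ ∈ Finset.Icc (-2 : ℤ) 2 := by
        have h3 : |l - k₀| < 3 := by exact_mod_cast h1
        have h4 := abs_lt.1 h3
        rw [Finset.mem_Icc]
        omega
      refine Set.mem_biUnion (x := (l - k₀, j)) (Finset.mem_product.2 ⟨h2, Finset.mem_univ _⟩) ?_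
      show x ∈ if |((k₀ + (l - k₀) : ℤ) : ℝ) * κ| ≤ 7 / 2 then
        A ∩ gbox κ η (k₀ + (l - k₀)) j else ∅
      rw [add_sub_cancel, if_pos hl]
      exact ⟨hxA, x3⟩
    · right
      exact ⟨hxA, x1, hxT⟩
  refine (Set.encard_le_encard hsub).trans ((Set.encard_union_le _ _).trans ?_)
  refine add_le_add_left ?_ _
  have h1 : ∀ (s : Finset (ℤ × Fin 4)), (⋃ p ∈ s, B (k₀ + p.1) p.2).encard ≤ s.card := by
    intro s
    induction s using Finset.induction_on with
    | empty => simp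
    | insert p s hp ih =>
      rw [Finset.set_biUnion_insert, Finset.card_insert_of_notMem hp]
      refine (Set.encard_union_le _ _).trans ?_
      push_cast
      rw [add_comm]
      exact add_le_add ih (hB _ _)
  refine (h1 _).trans ?_
  have h2 : ((Finset.Icc (-2 : ℤ) 2) ×ˢ (Finset.univ : Finset (Fin 4))).card = 20 := by decide
  rw [h2]
  norm_num

open Classical in
/-- the sum over the partners of a low point -/
theorem sum_lw (hg1 : S_G1) (htd : S_TD) {κ η : ℝ} (hκ : 0 < κ) (hκ1 : κ ≤ 1 / 100) (hη : 0 < η)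
    (hη1 : η ≤ κ ^ 3) {A : Set ℍ} (hA : GridOK κ η A) (w : ℍ) (hw : w ∈ Zl κ) (p : ℤ × ℤ)
    (hp : w ∈ tile p) :
    ∑' x : A, lw κ A w x ≤ ENNReal.ofReal (Real.exp 8) * 4 * gp κ A p := by
  have h1 : ∑' x : A, lw κ A w x ≤ ∑' x : SS κ A w,
      ENNReal.ofReal (Real.exp 8 * (w.im ^ 2 * Real.exp (2 * dist w x))) := by
    rw [tsum_subtype A (fun x : ℍ => lw κ A w x), tsum_subtype (SS κ A w)
      (fun x : ℍ => ENNReal.ofReal (Real.exp 8 * (w.im ^ 2 * Real.exp (2 * dist w x))))]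
    refine ENNReal.tsum_le_tsum fun x => ?_
    refine (Set.indicator_le_self _ _ _).trans ?_
    unfold lw
    by_cases h : x ∈ SS κ A w
    · rw [if_pos ⟨hw, h⟩, Set.indicator_of_mem h]
    · rw [if_neg (fun h' => h h'.2)]
      exact zero_le
  refine h1.trans ?_
  have h2 : ∀ x : SS κ A w, ENNReal.ofReal (Real.exp 8 * (w.im ^ 2 * Real.exp (2 * dist w x))) =
      ENNReal.ofReal (Real.exp 8) * ENNReal.ofReal (w.im ^ 2 * Real.exp (2 * dist w x)) :=
    fun x => ENNReal.ofReal_mul (Real.exp_pos _).le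
  simp only [h2]
  rw [ENNReal.tsum_mul_left, mul_assoc]
  gcongr
  have h3 := htd A (Zl κ) p w hp (SS κ A w) (by
    rintro x ⟨hxA, c, ρ, hemp, hc, hcw, hcx, hρ, hwc⟩
    refine ⟨ρ, hcw ▸ dist_nonneg, ?_, ?_⟩
    · have := dist_triangle_left w x c
      rw [hcw, hcx] at this
      linarith
    · rcases hρ with hρ | hρ
      · exact Or.inl hρ
      · refine Or.inr ⟨c, hcw.le, hρ, ?_⟩
        rw [Set.eq_empty_iff_forall_notMem] at hemp ⊢
        rintro z ⟨hz1, hz2⟩
        exact hemp z ⟨hz1, Metric.ball_subset_ball (by linarith) hz2⟩)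
  refine h3.trans ?_
  gcongr
  unfold gp
  refine ENNReal.tsum_le_tsum fun L => ?_
  split_ifs with hb
  · gcongr
    have h4 := encard_SS hg1 hκ hκ1 hη hη1 hA w (Metric.closedBall (ctr p) (2 * L + 3))
    exact_mod_cast h4
  · exact le_rfl

theorem ge (hg1 : S_G1) (hg2 : S_G2) (htd : S_TD) : S_GE := by
  classical
  refine ⟨600 + 8 * Real.exp 8, by positivity, ?_⟩
  intro κ η hκ hκ1 hη hη1 A _ hA
  set K : Set (ℤ × ℤ) := {p | (tile p ∩ Zl κ).Nonempty} with hK
  -- the sum over the low points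
  have hlow : ∑' w : A, ∑' x : A, lw κ A w x ≤
      ENNReal.ofReal (Real.exp 8) * 4 * Psi (Zl κ) K A := by
    have h1 : ∀ w : A, ∑' x : A, lw κ A w x ≤ ∑' p : K,
        (if (w : ℍ) ∈ tile p ∩ Zl κ then ENNReal.ofReal (Real.exp 8) * 4 * gp κ A p else 0) := by
      intro w
      by_cases hw : (w : ℍ) ∈ Zl κ
      · obtain ⟨p, hp⟩ := exists_tile (w : ℍ)
        have hpK : p ∈ K := ⟨w, hp, hw⟩
        refine (sum_lw hg1 htd hκ hκ1 hη hη1 hA w hw p hp).trans ?_
        refine le_trans ?_ (ENNReal.le_tsum (⟨p, hpK⟩ : K))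
        exact le_of_eq (if_pos (show (w : ℍ) ∈ tile p ∩ Zl κ from ⟨hp, hw⟩)).symm
      · have h2 : ∀ x : A, lw κ A w x = 0 := fun x => if_neg (fun h => hw h.1)
        simp only [h2, tsum_zero]
        exact zero_le
    refine (ENNReal.tsum_le_tsum h1).trans ?_
    rw [ENNReal.tsum_comm]
    unfold Psi
    rw [← ENNReal.tsum_mul_left]
    refine ENNReal.tsum_le_tsum fun p => ?_
    rw [tsum_ind', mul_left_comm]
    gcongr
    unfold gp
    rw [← ENNReal.tsum_mul_left]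
    refine ENNReal.tsum_le_tsum fun L => ?_
    by_cases hb : Bad (Zl κ) (p : ℤ × ℤ) L A
    · simp only [if_pos hb]
      rw [mul_left_comm, mul_assoc]
    · simp only [if_neg hb, mul_zero, le_refl]
  -- the energy
  have hEn : En (voronoiGraph A) (fun x => Wp x - Wm x) ≤ ∑' x : A, ∑' y : A,
      (gg κ η x y + (lw κ A x y + lw κ A y x)) := by
    unfold En
    rw [ENNReal.tsum_prod (f := fun x y : A => if (voronoiGraph A).Adj x y then
      ENNReal.ofReal ((Wp x - Wm x - (Wp y - Wm y)) ^ 2) else 0)]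
    refine ENNReal.tsum_le_tsum fun x => ENNReal.tsum_le_tsum fun y => ?_
    split_ifs with hadj
    · exact term_le hg1 hg2 hκ hκ1 hη hη1 hA x y hadj
    · exact zero_le
  refine hEn.trans ?_
  simp only [ENNReal.tsum_add]
  have hcomm : ∑' x : A, ∑' y : A, lw κ A y x = ∑' x : A, ∑' y : A, lw κ A x y :=
    ENNReal.tsum_comm
  rw [hcomm]
  have hsum := sum_gg hκ hκ1 hη hη1 hA
  refine (add_le_add hsum (add_le_add hlow hlow)).trans ?_
  refine add_le_add ?_ ?_
  · apply ENNReal.ofReal_le_ofReal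
    have := Real.exp_pos 8
    nlinarith
  · rw [← two_mul, ← mul_assoc, ← mul_assoc]
    gcongr
    have h1 : (2 : ℝ≥0∞) * ENNReal.ofReal (Real.exp 8) * 4 = ENNReal.ofReal (8 * Real.exp 8) := by
      have e2 : (2 : ℝ≥0∞) = ENNReal.ofReal 2 := by norm_num
      have e4 : (4 : ℝ≥0∞) = ENNReal.ofReal 4 := by norm_num
      rw [e2, e4, ← ENNReal.ofReal_mul (by norm_num), ← ENNReal.ofReal_mul (by positivity)]
      congr 1
      ring
    rw [h1]
    apply ENNReal.ofReal_le_ofReal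
    linarith

end Pool.Agent.Y781.HM
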