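import Pool.Agent.Y979.HM.Stm
import Pool.Agent.Y781.HM.G1

/-!
# The energy of a grid configuration: preparations
-/

set_option autoImplicit false

open MeasureTheory UpperHalfPlane Filter Pool.Agent.Y979.HV Pool.Agent.Y979.HM
open scoped ENNReal Topology

namespace Pool.Agent.Y781.HM

theorem W_eq (s : ℝ) : max 0 (min 1 s) - max 0 (min 1 (-s)) = max (-1) (min 1 s) := by
  rcases le_total 0 s with h | h
  · have h1 : max 0 (min 1 (-s)) = 0 := max_eq_left ((min_le_right _ _).trans (by linarith))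
    have h2 : 0 ≤ min 1 s := le_min zero_le_one h
    rw [h1, max_eq_right h2, max_eq_right (by linarith), sub_zero]
  · have h1 : max 0 (min 1 s) = 0 := max_eq_left ((min_le_right _ _).trans h)
    have h2 : 0 ≤ min 1 (-s) := le_min zero_le_one (by linarith)
    have h3 : min 1 s = s := min_eq_right (by linarith)
    rw [h1, max_eq_right h2, h3, zero_sub]
    rcases le_total (-1) s with h4 | h4
    · rw [max_eq_right h4, min_eq_right (by linarith)]
      ring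
    · rw [max_eq_left h4, min_eq_left (by linarith)]

/-- the truncated logarithm -/
noncomputable def WW (x : ℍ) : ℝ := Wp x - Wm x

theorem WW_eq (x : ℍ) : WW x = max (-1) (min 1 (sc x)) := W_eq (sc x)

theorem WW_sub_le (x y : ℍ) : |WW x - WW y| ≤ |sc x - sc y| := by
  rw [WW_eq, WW_eq, max_comm (-1), max_comm (-1)]
  refine (abs_max_sub_max_le_abs _ _ _).trans ?_
  rw [min_comm 1, min_comm 1]
  exact abs_inf_sub_inf_le_abs _ _ _

theorem WW_sq_le (x y : ℍ) : (WW x - WW y) ^ 2 ≤ (sc x - sc y) ^ 2 :=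
  sq_le_sq.2 (WW_sub_le x y)

theorem WW_one {x : ℍ} (h : 1 ≤ sc x) : WW x = 1 := by
  rw [WW_eq, min_eq_left h]
  norm_num

theorem WW_neg_one {x : ℍ} (h : sc x ≤ -1) : WW x = -1 := by
  rw [WW_eq, min_eq_right (by linarith), max_eq_left h]

theorem log_sub_le {a b m : ℝ} (hm : 0 < m) (ha : m ≤ a) (hb : m ≤ b) :
    |Real.log a - Real.log b| ≤ |a - b| / m := by
  have ha0 : 0 < a := hm.trans_le ha
  have hb0 : 0 < b := hm.trans_le hb
  have key : ∀ {a b : ℝ}, 0 < a → 0 < b → m ≤ b → Real.log a - Real.log b ≤ |a - b| / m := by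
    intro a b ha0 hb0 hb
    rw [← Real.log_div ha0.ne' hb0.ne']
    have h1 := Real.log_le_sub_one_of_pos (div_pos ha0 hb0)
    have h2 : a / b - 1 = (a - b) / b := by field_simp
    rw [h2] at h1
    refine h1.trans ?_
    refine (div_le_div_of_nonneg_right (le_abs_self _) hb0.le).trans ?_
    exact div_le_div_of_nonneg_left (abs_nonneg _) hm hb
  rw [abs_le]
  constructor
  · have := key hb0 ha0 ha
    rw [abs_sub_comm] at this
    linarith
  · exact key ha0 hb0 hb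

/-- the Euclidean distance -/
theorem norm_sub_sq_le (x w : ℍ) :
    ‖(x : ℂ) - w‖ ^ 2 ≤ w.im ^ 2 * Real.exp (2 * dist w x) := by
  have h1 := UpperHalfPlane.cosh_dist w x
  have hw := w.im_pos
  have hx := x.im_pos
  have h2 : dist (w : ℂ) x ^ 2 = 2 * w.im * x.im * (Real.cosh (dist w x) - 1) := by
    rw [h1]
    field_simp
    ring
  have h3 : x.im ≤ w.im * Real.exp (dist w x) := by
    have := UpperHalfPlane.im_le_im_mul_exp_dist x w
    rwa [dist_comm] at this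
  have h4 : Real.cosh (dist w x) - 1 ≤ Real.exp (dist w x) / 2 := by
    rw [Real.cosh_eq]
    have h5 : Real.exp (-dist w x) ≤ 1 := Real.exp_le_one_iff.2 (by linarith [dist_nonneg (x := w) (y := x)])
    linarith
  have h6 : 0 ≤ Real.cosh (dist w x) - 1 := by linarith [Real.one_le_cosh (dist w x)]
  have h7 : ‖(x : ℂ) - w‖ ^ 2 = dist (w : ℂ) x ^ 2 := by
    rw [dist_comm, Complex.dist_eq]
  rw [h7, h2, two_mul (dist w x), Real.exp_add]
  have e0 := Real.exp_pos (dist w x)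
  calc 2 * w.im * x.im * (Real.cosh (dist w x) - 1)
      ≤ 2 * w.im * (w.im * Real.exp (dist w x)) * (Real.exp (dist w x) / 2) := by
        refine mul_le_mul (mul_le_mul_of_nonneg_left h3 (by positivity)) h4 h6 (by positivity)
    _ = w.im ^ 2 * (Real.exp (dist w x) * Real.exp (dist w x)) := by ring

theorem sc_sq_le {x w : ℍ} (hx : |sc x| < 4) (hw : |sc w| < 4) :
    (sc x - sc w) ^ 2 ≤ Real.exp 8 * (w.im ^ 2 * Real.exp (2 * dist w x)) := by
  have key : ∀ z : ℍ, |sc z| < 4 → Real.exp (-4) ≤ ‖(z : ℂ)‖ := by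
    intro z hz
    rw [← exp_sc z]
    exact Real.exp_le_exp.2 (abs_lt.1 hz).1.le
  have h1 : |sc x - sc w| ≤ |‖(x : ℂ)‖ - ‖(w : ℂ)‖| / Real.exp (-4) :=
    log_sub_le (Real.exp_pos _) (key x hx) (key w hw)
  have h2 : |‖(x : ℂ)‖ - ‖(w : ℂ)‖| ≤ ‖(x : ℂ) - w‖ := abs_norm_sub_norm_le _ _
  have h3 : |sc x - sc w| ≤ ‖(x : ℂ) - w‖ * Real.exp 4 := by
    refine h1.trans ?_
    rw [Real.exp_neg, div_inv_eq_mul]
    exact mul_le_mul_of_nonneg_right h2 (Real.exp_pos _).le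
  have h4 : (sc x - sc w) ^ 2 ≤ (‖(x : ℂ) - w‖ * Real.exp 4) ^ 2 := by
    rw [← sq_abs (sc x - sc w)]
    exact pow_le_pow_left₀ (abs_nonneg _) h3 2
  refine h4.trans ?_
  rw [mul_pow, ← Real.exp_nat_mul, mul_comm]
  have e : ((2 : ℕ) : ℝ) * 4 = 8 := by norm_num
  rw [e]
  exact mul_le_mul_of_nonneg_left (norm_sub_sq_le x w) (Real.exp_pos _).le

/-- every point is in a tile -/
theorem exists_tile (z : ℍ) : ∃ p, z ∈ tile p := by
  obtain ⟨n, h1, h2⟩ := exists_mem_Ico_zpow z.im_pos (one_lt_two : (1 : ℝ) < 2)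
  have h3 : (0 : ℝ) < 2 ^ n := by positivity
  refine ⟨(n, ⌊z.re / 2 ^ n⌋), ?_, ?_, h1, h2⟩
  · exact (le_div_iff₀ h3).1 (Int.floor_le _)
  · exact (div_lt_iff₀ h3).1 (Int.lt_floor_add_one _)

/-- sums over the points of a configuration in a set -/
theorem tsum_ind (A B : Set ℍ) (c : ℝ≥0∞) :
    ∑' x : A, (open Classical in if (x : ℍ) ∈ B then c else 0) = (A ∩ B).encard * c := by
  classical
  rw [← ENNReal.tsum_set_const, tsum_subtype A (fun x : ℍ => if x ∈ B then c else 0),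
    tsum_subtype (A ∩ B) (fun _ => c)]
  congr 1
  funext x
  by_cases h1 : x ∈ A
  · by_cases h2 : x ∈ B
    · rw [Set.indicator_of_mem h1, Set.indicator_of_mem (s := A ∩ B) ⟨h1, h2⟩, if_pos h2]
    · rw [Set.indicator_of_mem h1, Set.indicator_of_notMem (s := A ∩ B) (fun h => h2 h.2), if_neg h2]
  · rw [Set.indicator_of_notMem h1, Set.indicator_of_notMem (s := A ∩ B) (fun h => h1 h.1)]

/-- the boxes which matter -/
noncomputable def Ks (κ : ℝ) : Finset ℤ := Finset.Icc (-⌊7 / (2 * κ)⌋) ⌊7 / (2 * κ)⌋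

theorem mem_Ks {κ : ℝ} (hκ : 0 < κ) {k : ℤ} (h : |(k : ℝ) * κ| ≤ 7 / 2) : k ∈ Ks κ := by
  have h1 := abs_le.1 h
  unfold Ks
  rw [Finset.mem_Icc]
  constructor
  · rw [neg_le, Int.le_floor, le_div_iff₀ (by positivity)]
    push_cast
    linarith [h1.1]
  · rw [Int.le_floor, le_div_iff₀ (by positivity)]
    linarith [h1.2]

theorem card_Ks {κ : ℝ} (hκ : 0 < κ) (hκ1 : κ ≤ 1 / 100) : ((Ks κ).card : ℝ) ≤ 8 / κ := by
  have h0 : (0 : ℝ) ≤ 7 / (2 * κ) := by positivity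
  have h1 : (0 : ℤ) ≤ ⌊7 / (2 * κ)⌋ := Int.floor_nonneg.2 h0
  have h2 := Int.floor_le (7 / (2 * κ))
  unfold Ks
  rw [Int.card_Icc]
  have h3 : ((⌊7 / (2 * κ)⌋ + 1 - -⌊7 / (2 * κ)⌋).toNat : ℝ) = 2 * (⌊7 / (2 * κ)⌋ : ℝ) + 1 := by
    have h4 : ((⌊7 / (2 * κ)⌋ + 1 - -⌊7 / (2 * κ)⌋).toNat : ℤ) = 2 * ⌊7 / (2 * κ)⌋ + 1 := by
      rw [Int.toNat_of_nonneg (by omega)]
      ring
    exact_mod_cast h4
  rw [h3]
  have h5 : 7 / κ = 2 * (7 / (2 * κ)) := by field_simp
  have h6 : 1 ≤ 1 / κ := by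
    rw [le_div_iff₀ hκ]
    linarith
  have h7 : 8 / κ = 7 / κ + 1 / κ := by ring
  rw [h7, h5]
  linarith

end Pool.Agent.Y781.HM
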