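import Pool.Agent.Y781.HM.GE1

/-!
# The energy of a grid configuration
-/

set_option autoImplicit false

open MeasureTheory UpperHalfPlane Filter Pool.Agent.Y979.HV Pool.Agent.Y979.HM
open scoped ENNReal Topology

namespace Pool.Agent.Y781.HM

open Classical in
/-- the term of two grid points -/
noncomputable def gg (κ η : ℝ) (x y : ℍ) : ℝ≥0∞ :=
  if x ∈ gboxes κ η ∧ y ∈ gboxes κ η ∧ |sc x - sc y| ≤ 6 / 5 * κ then
    ENNReal.ofReal ((6 / 5 * κ) ^ 2) else 0

/-- the partners of a low point -/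
def SS (κ : ℝ) (A : Set ℍ) (w : ℍ) : Set ℍ :=
  {x | x ∈ A ∧ ∃ (c : ℍ) (ρ : ℝ), A ∩ Metric.ball c ρ = ∅ ∧ |sc c| ≤ 3 ∧ dist c w = ρ ∧
    dist c x = ρ ∧ (ρ ≤ 3 ∨ Metric.ball c (ρ - 3) ⊆ Zl κ) ∧ |sc w - sc c| ≤ 8 / 5 * κ}

open Classical in
/-- the term of a low point and a partner -/
noncomputable def lw (κ : ℝ) (A : Set ℍ) (w x : ℍ) : ℝ≥0∞ :=
  if w ∈ Zl κ ∧ x ∈ SS κ A w then
    ENNReal.ofReal (Real.exp 8 * (w.im ^ 2 * Real.exp (2 * dist w x))) else 0

theorem gboxes_lt {κ η : ℝ} (hη4 : η ≤ 1 / 1000000) {x : ℍ} (hx : x ∈ gboxes κ η) :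
    |sc x| < 4 := by
  unfold gboxes at hx
  simp only [Set.mem_iUnion] at hx
  obtain ⟨k, hk, j, h1, -⟩ := hx
  have h2 := abs_le.1 hk
  have h3 := abs_lt.1 h1
  rw [abs_lt]
  constructor
  · linarith [h2.1, h3.1]
  · linarith [h2.2, h3.2]

open Classical in
/-- the terms of the energy -/
theorem term_le (hg1 : S_G1) (hg2 : S_G2) {κ η : ℝ} (hκ : 0 < κ) (hκ1 : κ ≤ 1 / 100) (hη : 0 < η)
    (hη1 : η ≤ κ ^ 3) {A : Set ℍ} (hA : GridOK κ η A) (x y : A)
    (hadj : (voronoiGraph A).Adj x y) :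
    ENNReal.ofReal ((WW x - WW y) ^ 2) ≤ gg κ η x y + (lw κ A x y + lw κ A y x) := by
  obtain ⟨-, -, hη4⟩ := eta_le hκ hκ1 hη1
  obtain ⟨c, hcx, hcy⟩ := exists_touch hadj
  have hd : dist c (x : ℍ) = dist c (y : ℍ) := le_antisymm (hcx y y.2) (hcy x x.2)
  have hemp : A ∩ Metric.ball c (dist c (x : ℍ)) = ∅ := by
    rw [Set.eq_empty_iff_forall_notMem]
    rintro v ⟨hv, hv2⟩
    rw [Metric.mem_ball, dist_comm] at hv2
    exact absurd (hcx v hv) (not_le.2 hv2)
  by_cases hc : |sc c| ≤ 3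
  · have gx := hg1 κ η hκ hκ1 hη hη1 A hA c _ hemp hc x x.2 rfl
    have gy := hg1 κ η hκ hκ1 hη hη1 A hA c _ hemp hc y y.2 hd.symm
    rcases gx with ⟨x1, x2⟩ | ⟨x1, x2, x3⟩
    · rcases gy with ⟨y1, y2⟩ | ⟨y1, y2, y3⟩
      · -- two grid points
        have h1 : |sc (x : ℍ) - sc (y : ℍ)| ≤ 6 / 5 * κ := by
          have h3 := abs_le.1 x2
          have h4 := abs_le.1 y2
          rw [abs_le]
          constructor
          · linarith [h3.1, h4.2]
          · linarith [h3.2, h4.1]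
        have h2 : gg κ η x y = ENNReal.ofReal ((6 / 5 * κ) ^ 2) := if_pos ⟨x1, y1, h1⟩
        rw [h2]
        refine le_trans ?_ le_self_add
        apply ENNReal.ofReal_le_ofReal
        refine (WW_sq_le _ _).trans ?_
        rw [← sq_abs (sc (x : ℍ) - sc (y : ℍ))]
        exact pow_le_pow_left₀ (abs_nonneg _) h1 2
      · -- y is low
        have hS : (x : ℍ) ∈ SS κ A y := ⟨x.2, c, _, hemp, hc, hd.symm, rfl, y3, y2⟩
        have h2 : lw κ A y x = ENNReal.ofReal
            (Real.exp 8 * ((y : ℍ).im ^ 2 * Real.exp (2 * dist (y : ℍ) x))) := if_pos ⟨y1, hS⟩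
        rw [h2]
        refine le_trans ?_ (le_add_left le_add_self)
        apply ENNReal.ofReal_le_ofReal
        exact (WW_sq_le _ _).trans (sc_sq_le (gboxes_lt hη4 x1) y1.1)
    · -- x is low
      have hy4 : |sc (y : ℍ)| < 4 := by
        rcases gy with ⟨y1, y2⟩ | ⟨y1, y2, y3⟩
        · exact gboxes_lt hη4 y1
        · exact y1.1
      have hS : (y : ℍ) ∈ SS κ A x := ⟨y.2, c, _, hemp, hc, rfl, hd.symm, x3, x2⟩
      have h2 : lw κ A x y = ENNReal.ofReal
          (Real.exp 8 * ((x : ℍ).im ^ 2 * Real.exp (2 * dist (x : ℍ) y))) := if_pos ⟨x1, hS⟩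
      rw [h2]
      refine le_trans ?_ (le_add_left le_self_add)
      apply ENNReal.ofReal_le_ofReal
      rw [← neg_sub (WW (y : ℍ)), neg_sq]
      exact (WW_sq_le _ _).trans (sc_sq_le hy4 x1.1)
  · -- the centre is outside
    have gx := hg2 κ η hκ hκ1 hη hη1 A hA c _ hemp x x.2 rfl
    have gy := hg2 κ η hκ hκ1 hη hη1 A hA c _ hemp y y.2 hd.symm
    have h0 : WW (x : ℍ) = WW (y : ℍ) := by
      push Not at hc
      rcases lt_abs.1 hc with h | h
      · rw [WW_one (gx.1 h).le, WW_one (gy.1 h).le]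
      · rw [WW_neg_one (gx.2 (by linarith)).le, WW_neg_one (gy.2 (by linarith)).le]
    rw [h0, sub_self]
    simp

open Classical in
/-- the sum over the pairs of grid points -/
theorem sum_gg {κ η : ℝ} (hκ : 0 < κ) (hκ1 : κ ≤ 1 / 100) (hη : 0 < η)
    (hη1 : η ≤ κ ^ 3) {A : Set ℍ} (hA : GridOK κ η A) :
    ∑' x : A, ∑' y : A, gg κ η x y ≤ ENNReal.ofReal (600 * κ) := by
  obtain ⟨hη2, -, hη4⟩ := eta_le hκ hκ1 hη1
  set q : ℝ≥0∞ := ENNReal.ofReal ((6 / 5 * κ) ^ 2) with hq
  -- the boxes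
  let B : ℤ → Fin 4 → Set ℍ := fun k j => if |(k : ℝ) * κ| ≤ 7 / 2 then gbox κ η k j else ∅
  have hB : ∀ k j, (A ∩ B k j).encard ≤ 1 := by
    intro k j
    show (A ∩ (if |(k : ℝ) * κ| ≤ 7 / 2 then gbox κ η k j else ∅)).encard ≤ 1
    split_ifs with h
    · exact (hA.1 k h j).le
    · simp
  have hmem : ∀ x : ℍ, x ∈ gboxes κ η → ∃ k ∈ Ks κ, ∃ j, x ∈ B k j ∧ |sc x - k * κ| < η := by
    intro x hx
    unfold gboxes at hx
    simp only [Set.mem_iUnion] at hx
    obtain ⟨k, hk, j, h1⟩ := hx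
    refine ⟨k, mem_Ks hκ hk, j, ?_, h1.1⟩
    show x ∈ if |(k : ℝ) * κ| ≤ 7 / 2 then gbox κ η k j else ∅
    rw [if_pos hk]
    exact h1
  -- the partners of a point in a box
  have hle : ∀ x y : A, gg κ η x y ≤ ∑ k ∈ Ks κ, ∑ j : Fin 4,
      (if (x : ℍ) ∈ B k j then
        ∑ d ∈ Finset.Icc (-1 : ℤ) 1, ∑ i : Fin 4, (if (y : ℍ) ∈ B (k + d) i then q else 0)
        else 0) := by
    intro x y
    unfold gg
    split_ifs with h
    · obtain ⟨hx, hy, hxy⟩ := h
      obtain ⟨k, hk, j, hx1, hx2⟩ := hmem x hx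
      obtain ⟨l, hl, i, hy1, hy2⟩ := hmem y hy
      have h1 : |((l - k : ℤ) : ℝ)| < 2 := by
        have h3 := abs_lt.1 hx2
        have h4 := abs_lt.1 hy2
        have h5 := abs_le.1 hxy
        rw [abs_lt]
        push_cast
        constructor
        · by_contra hcon
          push Not at hcon
          have : ((l : ℝ) - k) * κ ≤ -2 * κ := mul_le_mul_of_nonneg_right hcon hκ.le
          nlinarith [h3.1, h3.2, h4.1, h4.2, h5.1, h5.2]
        · by_contra hcon
          push Not at hcon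
          have : 2 * κ ≤ ((l : ℝ) - k) * κ := mul_le_mul_of_nonneg_right hcon hκ.le
          nlinarith [h3.1, h3.2, h4.1, h4.2, h5.1, h5.2]
      have h2 : l - k ∈ Finset.Icc (-1 : ℤ) 1 := by
        have h3 : |l - k| < 2 := by exact_mod_cast h1
        have h4 := abs_lt.1 h3
        rw [Finset.mem_Icc]
        omega
      calc q = (if (y : ℍ) ∈ B (k + (l - k)) i then q else 0) := by
              rw [add_sub_cancel, if_pos hy1]
        _ ≤ ∑ i : Fin 4, (if (y : ℍ) ∈ B (k + (l - k)) i then q else 0) :=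
              Finset.single_le_sum (f := fun i => if (y : ℍ) ∈ B (k + (l - k)) i then q else 0)
                (fun _ _ => zero_le) (Finset.mem_univ i)
        _ ≤ ∑ d ∈ Finset.Icc (-1 : ℤ) 1, ∑ i : Fin 4, (if (y : ℍ) ∈ B (k + d) i then q else 0) :=
              Finset.single_le_sum (f := fun d => ∑ i : Fin 4,
                if (y : ℍ) ∈ B (k + d) i then q else 0) (fun _ _ => zero_le) h2
        _ = (if (x : ℍ) ∈ B k j then
              ∑ d ∈ Finset.Icc (-1 : ℤ) 1, ∑ i : Fin 4, (if (y : ℍ) ∈ B (k + d) i then q else 0)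
              else 0) := (if_pos hx1).symm
        _ ≤ ∑ j : Fin 4, (if (x : ℍ) ∈ B k j then
              ∑ d ∈ Finset.Icc (-1 : ℤ) 1, ∑ i : Fin 4, (if (y : ℍ) ∈ B (k + d) i then q else 0)
              else 0) :=
              Finset.single_le_sum (f := fun j => if (x : ℍ) ∈ B k j then
                ∑ d ∈ Finset.Icc (-1 : ℤ) 1, ∑ i : Fin 4,
                  (if (y : ℍ) ∈ B (k + d) i then q else 0) else 0)
                (fun _ _ => zero_le) (Finset.mem_univ j)
        _ ≤ _ := Finset.single_le_sum (f := fun k => ∑ j : Fin 4, (if (x : ℍ) ∈ B k j then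
                ∑ d ∈ Finset.Icc (-1 : ℤ) 1, ∑ i : Fin 4,
                  (if (y : ℍ) ∈ B (k + d) i then q else 0) else 0))
                (fun _ _ => zero_le) hk
    · exact zero_le
  -- the inner sum
  have hin : ∀ k : ℤ, ∑' y : A, ∑ d ∈ Finset.Icc (-1 : ℤ) 1, ∑ i : Fin 4,
      (if (y : ℍ) ∈ B (k + d) i then q else 0) ≤ 12 * q := by
    intro k
    rw [Summable.tsum_finsetSum (fun _ _ => ENNReal.summable)]
    have h1 : ∀ d ∈ Finset.Icc (-1 : ℤ) 1, ∑' y : A, ∑ i : Fin 4,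
        (if (y : ℍ) ∈ B (k + d) i then q else 0) ≤ 4 * q := by
      intro d _
      rw [Summable.tsum_finsetSum (fun _ _ => ENNReal.summable)]
      have h2 : ∀ i ∈ (Finset.univ : Finset (Fin 4)), ∑' y : A,
          (if (y : ℍ) ∈ B (k + d) i then q else 0) ≤ q := by
        intro i _
        rw [tsum_ind]
        have h3 : (((A ∩ B (k + d) i).encard : ℕ∞) : ℝ≥0∞) ≤ 1 := by
          have := hB (k + d) i
          exact_mod_cast this
        calc _ ≤ 1 * q := by gcongr
          _ = q := one_mul q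
      refine (Finset.sum_le_card_nsmul _ _ _ h2).trans ?_
      simp
    refine (Finset.sum_le_card_nsmul _ _ _ h1).trans ?_
    have hcard : (Finset.Icc (-1 : ℤ) 1).card = 3 := by decide
    rw [hcard, nsmul_eq_mul, ← mul_assoc]
    gcongr
    norm_num
  have hout : ∑' x : A, ∑' y : A, gg κ η x y ≤ (Ks κ).card * (4 * (12 * q)) := by
    calc ∑' x : A, ∑' y : A, gg κ η x y
        ≤ ∑' x : A, ∑' y : A, ∑ k ∈ Ks κ, ∑ j : Fin 4,
          (if (x : ℍ) ∈ B k j then
            ∑ d ∈ Finset.Icc (-1 : ℤ) 1, ∑ i : Fin 4, (if (y : ℍ) ∈ B (k + d) i then q else 0)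
            else 0) := ENNReal.tsum_le_tsum fun x => ENNReal.tsum_le_tsum fun y => hle x y
      _ ≤ ∑' x : A, ∑ k ∈ Ks κ, ∑ j : Fin 4, (if (x : ℍ) ∈ B k j then 12 * q else 0) := by
          refine ENNReal.tsum_le_tsum fun x => ?_
          rw [Summable.tsum_finsetSum (fun _ _ => ENNReal.summable)]
          refine Finset.sum_le_sum fun k _ => ?_
          rw [Summable.tsum_finsetSum (fun _ _ => ENNReal.summable)]
          refine Finset.sum_le_sum fun j _ => ?_
          by_cases h : (x : ℍ) ∈ B k j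
          · simp only [if_pos h]
            exact hin k
          · simp only [if_neg h, tsum_zero, le_refl]
      _ = ∑ k ∈ Ks κ, ∑ j : Fin 4, (A ∩ B k j).encard * (12 * q) := by
          rw [Summable.tsum_finsetSum (fun _ _ => ENNReal.summable)]
          refine Finset.sum_congr rfl fun k _ => ?_
          rw [Summable.tsum_finsetSum (fun _ _ => ENNReal.summable)]
          refine Finset.sum_congr rfl fun j _ => ?_
          rw [tsum_ind]
      _ ≤ ∑ k ∈ Ks κ, ∑ j : Fin 4, (12 * q) := by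
          refine Finset.sum_le_sum fun k _ => Finset.sum_le_sum fun j _ => ?_
          have h3 : (((A ∩ B k j).encard : ℕ∞) : ℝ≥0∞) ≤ 1 := by
            have := hB k j
            exact_mod_cast this
          calc _ ≤ 1 * (12 * q) := by gcongr
            _ = 12 * q := one_mul _
      _ = (Ks κ).card * (4 * (12 * q)) := by
          simp
  refine hout.trans ?_
  have h1 : ((Ks κ).card : ℝ≥0∞) ≤ ENNReal.ofReal (8 / κ) := by
    rw [← ENNReal.ofReal_natCast]
    exact ENNReal.ofReal_le_ofReal (card_Ks hκ hκ1)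
  calc ((Ks κ).card : ℝ≥0∞) * (4 * (12 * q))
      ≤ ENNReal.ofReal (8 / κ) * (ENNReal.ofReal 4 * (ENNReal.ofReal 12 *
        ENNReal.ofReal ((6 / 5 * κ) ^ 2))) := by
        rw [hq]
        gcongr
        · norm_num
        · norm_num
    _ = ENNReal.ofReal (8 / κ * (4 * (12 * (6 / 5 * κ) ^ 2))) := by
        rw [ENNReal.ofReal_mul (by positivity), ENNReal.ofReal_mul (by norm_num),
          ENNReal.ofReal_mul (by norm_num)]
    _ ≤ ENNReal.ofReal (600 * κ) := by
        apply ENNReal.ofReal_le_ofReal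
        have : 8 / κ * (4 * (12 * (6 / 5 * κ) ^ 2)) = 13824 / 25 * κ := by
          field_simp
          ring
        rw [this]
        linarith

end Pool.Agent.Y781.HM
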